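import Mathlib
import Pool.Agent.H72.Li.L10
set_option autoImplicit false

/-!
# Stein's restriction conjecture: Ad-invariant densities on compact Lie algebras

Let `ℝ^n` carry the structure of a Lie algebra whose bracket is compatible with the Euclidean inner
product, `⟨[x,y],z⟩ = -⟨y,[x,z]⟩` (so this is a compact Lie algebra with an invariant inner product),
and let `t` be a maximal abelian subspace, of dimension `l` (the rank), `2 ≤ l < n`. We consider
arbitrary bounded measurable densities `g` on the unit sphere of `ℝ^n` that are invariant under all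
the inner automorphisms `exp(ad x)`; they are the arbitrary bounded Borel functions of the
invariants of the Lie algebra.

* If `l = 2`, then the Fourier transform of `g dσ` is in `L^q(ℝ^n)` for every `q > 2n/(n-1)`, the
  full conjectured range, with norm at most `C ‖g‖_∞`.
* For every rank this holds for `q > 2 + 4/(2n-l-1)`.
* More generally, every estimate `L^∞ → L^P` for the sphere of `ℝ^l` gives the estimate for the
  invariant densities on the sphere of `ℝ^n` if `(q - 2)((n-l)/2 + 1/(P-2)) > 1`. In particular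
  Stein's conjecture in `ℝ^l` implies it for the invariant densities in the full range
  `q > 2n/(n-1)`.
-/

namespace Pool.Agent.Results.MP_6cbfb8_an.AdInvariant

open MeasureTheory Set Metric Complex
open Pool.Agent.TH335.RF
open Pool.Agent.H438R2.PD (T_meas')
open Pool.Agent.H789R2.FR (E sg T sg_finite)
open scoped ENNReal RealInnerProductSpace

/-- surface measure on the unit sphere -/
noncomputable def sigma (n : ℕ) : Measure (sphere (0 : E n) 1) := (volume : Measure (E n)).toSphere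

/-- the Fourier transform of the measure `g dσ` -/
noncomputable def ft {n : ℕ} (g : sphere (0 : E n) 1 → ℂ) (ξ : E n) : ℂ :=
  ∫ x, Complex.exp (-(2 * Real.pi * ⟪(x : E n), ξ⟫ : ℝ) * I) * g x ∂(sigma n)

/-- Stein's estimate for the unit sphere of `ℝ^n` and the exponent `p`: the Fourier transform maps
densities bounded by one to a bounded subset of `L^p`. -/
def Stein (n : ℕ) (p : ℝ) : Prop := ∃ C : ℝ, ∀ g : sphere (0 : E n) 1 → ℂ, Measurable g →
  (∀ x, ‖g x‖ ≤ 1) → eLpNorm (ft g) (ENNReal.ofReal p) ≤ ENNReal.ofReal C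

/-- `B` is the bracket of a Lie algebra structure on `ℝ^n` for which the Euclidean inner product is
invariant: it is bilinear and antisymmetric, satisfies the Jacobi identity, and every
`ad x = B x ·` is skew-symmetric. -/
structure LieBracket {n : ℕ} (B : E n → E n → E n) : Prop where
  add : ∀ x y z, B (x + y) z = B x z + B y z
  smul : ∀ (c : ℝ) (x y : E n), B (c • x) y = c • B x y
  antisymm : ∀ x y, B x y = -B y x
  jacobi : ∀ x y z, B x (B y z) = B (B x y) z + B y (B x z)
  invariant : ∀ x y z, (⟪B x y, z⟫ : ℝ) = -⟪y, B x z⟫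

/-- `t` is a maximal abelian subspace: the bracket vanishes on it, and it contains every element
that commutes with it -/
structure MaximalAbelian {n : ℕ} (B : E n → E n → E n) (t : Submodule ℝ (E n)) : Prop where
  abelian : ∀ x ∈ t, ∀ y ∈ t, B x y = 0
  maximal : ∀ x, (∀ y ∈ t, B x y = 0) → x ∈ t

/-- `B` has a maximal abelian subspace of dimension `l`. (For compact Lie algebras all the maximal
abelian subspaces are conjugate, and `l` is the rank.) -/
def RankEq {n : ℕ} (B : E n → E n → E n) (l : ℕ) : Prop :=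
  ∃ t : Submodule ℝ (E n), MaximalAbelian B t ∧ Module.finrank ℝ t = l

/-- The density `g` is invariant under all the inner automorphisms `exp(ad x)`: it takes the same
value at `u` and at `v = exp(ad x) u`, where `exp(ad x) u = c 1` for the solution `c` of the
differential equation `c' = [x, c]`, `c 0 = u`. -/
def AdInv {n : ℕ} (B : E n → E n → E n) (g : sphere (0 : E n) 1 → ℂ) : Prop :=
  ∀ (x : E n) (c : ℝ → E n), (∀ t, HasDerivAt c (B x (c t)) t) →
    ∀ u v : sphere (0 : E n) 1, c 0 = u → c 1 = v → g v = g u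

/-- The estimate with exponent `q` for all the bounded invariant densities. -/
def Holds {n : ℕ} (B : E n → E n → E n) (q : ℝ) : Prop := ∃ C : ℝ, 0 < C ∧
  ∀ (M : ℝ) (g : sphere (0 : E n) 1 → ℂ), Measurable g → (∀ x, ‖g x‖ ≤ M) → AdInv B g →
    MemLp (ft g) (ENNReal.ofReal q) ∧ eLpNorm (ft g) (ENNReal.ofReal q) ≤ ENNReal.ofReal (C * M)

/-- The exponents `q` for which we prove the estimate in dimension `n` and rank `l`. -/
def Admissible (n l : ℕ) (q : ℝ) : Prop :=
  (l = 2 ∧ 2 * (n : ℝ) / (n - 1) < q) ∨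
  2 + 4 / (2 * (n : ℝ) - l - 1) < q ∨
  (∃ P : ℝ, 2 < P ∧ Stein l P ∧ 1 < (q - 2) * (((n : ℝ) - l) / 2 + 1 / (P - 2))) ∨
  ((∀ P : ℝ, 2 * (l : ℝ) / (l - 1) < P → Stein l P) ∧ 2 * (n : ℝ) / (n - 1) < q)

/-! ### Proofs -/

theorem ft_eq {n : ℕ} (g : sphere (0 : E n) 1 → ℂ) (G : E n → ℂ) (hG : Measurable G)
    (hg : ∀ x, g x = G x) (ξ : E n) : ft g ξ = T G ((2 * Real.pi) • ξ) := by
  unfold T ft
  have m1 : Measurable fun w : E n =>
      Complex.exp (-((⟪(2 * Real.pi) • ξ, w⟫ : ℝ) : ℂ) * I) * G w := by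
    have h2 : Measurable fun z : E n => (⟪(2 * Real.pi) • ξ, z⟫ : ℝ) :=
      (by fun_prop : Continuous _).measurable
    exact (Complex.measurable_exp.comp ((Complex.measurable_ofReal.comp h2).neg.mul_const I)).mul hG
  simp only [sg]
  rw [integral_map measurable_subtype_coe.aemeasurable m1.aestronglyMeasurable]
  apply integral_congr_ae
  refine Filter.Eventually.of_forall fun x => ?_
  simp only
  rw [hg x, real_inner_smul_left, real_inner_comm]

theorem scale {n : ℕ} (f : E n → ℝ≥0∞) (hf : Measurable f) :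
    ∫⁻ ξ : E n, f ((2 * Real.pi) • ξ) =
      ENNReal.ofReal ((2 * Real.pi) ^ n)⁻¹ * ∫⁻ z, f z := by
  have h2pi : (2 * Real.pi) ≠ 0 := by positivity
  have h3 := Measure.map_addHaar_smul (volume : Measure (E n)) h2pi
  have h4 : ∫⁻ x : E n, f x ∂(Measure.map ((2 * Real.pi) • · : E n → E n) volume) =
      ∫⁻ ξ : E n, f ((2 * Real.pi) • ξ) := lintegral_map hf (measurable_const_smul _)
  rw [← h4, h3, lintegral_smul_measure, smul_eq_mul, finrank_euclideanSpace_fin,
    abs_of_nonneg (by positivity)]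

theorem ft_int_le {n : ℕ} (q : ℝ) (g : sphere (0 : E n) 1 → ℂ) (G : E n → ℂ)
    (hG : Measurable G) (hg : ∀ x, g x = G x) :
    Measurable (ft g) ∧ ∫⁻ ξ, ‖ft g ξ‖ₑ ^ q ≤ ∫⁻ z, ‖T G z‖ₑ ^ q := by
  have hfun : ft g = fun ξ => T G ((2 * Real.pi) • ξ) := funext fun ξ => ft_eq g G hG hg ξ
  have hTm : Measurable (T G) := T_meas' G hG
  have hsm : Measurable fun x : E n => (2 * Real.pi) • x := measurable_const_smul _
  have hmeas : Measurable fun z => ‖T G z‖ₑ ^ q := hTm.enorm.pow_const q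
  refine ⟨by rw [hfun]; exact hTm.comp hsm, ?_⟩
  rw [hfun, scale (fun z => ‖T G z‖ₑ ^ q) hmeas]
  have h5 : ENNReal.ofReal ((2 * Real.pi) ^ n)⁻¹ ≤ 1 := by
    rw [ENNReal.ofReal_le_one]
    apply inv_le_one_of_one_le₀
    apply one_le_pow₀
    linarith [Real.pi_gt_three]
  calc _ ≤ 1 * ∫⁻ z, ‖T G z‖ₑ ^ q := by gcongr
    _ = _ := one_mul _

theorem rt_of_stein (n : ℕ) (P : ℝ) (hP : 0 < P) (h : Stein n P) : RT n P := by
  obtain ⟨C, hC⟩ := h
  set C' : ℝ := |C| + 1 with hC'
  have hC'0 : 0 < C' := by positivity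
  have h2pi : 0 < (2 * Real.pi) ^ n := by positivity
  refine ⟨(2 * Real.pi) ^ n * C' ^ P, by positivity, fun G hG hb => ?_⟩
  set g : sphere (0 : E n) 1 → ℂ := fun x => G x with hg
  have hgm : Measurable g := hG.comp measurable_subtype_coe
  have h1 := hC g hgm (fun x => hb _)
  have hfun : ft g = fun ξ => T G ((2 * Real.pi) • ξ) := by
    funext ξ
    exact ft_eq g G hG (fun x => rfl) ξ
  rw [eLpNorm_eq_lintegral_rpow_enorm_toReal (by simpa using hP) ENNReal.ofReal_ne_top,
    ENNReal.toReal_ofReal hP.le, hfun] at h1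
  have hmeas : Measurable fun z => ‖T G z‖ₑ ^ P := (T_meas' G hG).enorm.pow_const P
  rw [scale (fun z => ‖T G z‖ₑ ^ P) hmeas] at h1
  have h2 : ENNReal.ofReal ((2 * Real.pi) ^ n)⁻¹ * ∫⁻ z, ‖T G z‖ₑ ^ P ≤
      ENNReal.ofReal (C' ^ P) := by
    have h3 := ENNReal.rpow_le_rpow h1 hP.le
    rw [← ENNReal.rpow_mul, one_div_mul_cancel hP.ne', ENNReal.rpow_one] at h3
    refine h3.trans ?_
    rw [← ENNReal.ofReal_rpow_of_nonneg hC'0.le hP.le]
    apply ENNReal.rpow_le_rpow _ hP.le
    apply ENNReal.ofReal_le_ofReal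
    rw [hC']
    linarith [le_abs_self C]
  calc ∫⁻ z, ‖T G z‖ₑ ^ P = ENNReal.ofReal ((2 * Real.pi) ^ n) *
        (ENNReal.ofReal ((2 * Real.pi) ^ n)⁻¹ * ∫⁻ z, ‖T G z‖ₑ ^ P) := by
        rw [← mul_assoc, ← ENNReal.ofReal_mul h2pi.le, mul_inv_cancel₀ h2pi.ne',
          ENNReal.ofReal_one, one_mul]
    _ ≤ ENNReal.ofReal ((2 * Real.pi) ^ n) * ENNReal.ofReal (C' ^ P) := by gcongr
    _ = _ := by rw [← ENNReal.ofReal_mul h2pi.le]

/-- choice of an auxiliary exponent -/
theorem exists_P (a B q : ℝ) (ha : 0 ≤ a) (hB : 0 < B) (h : 1 < (q - 2) * (a + B)) :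
    ∃ P : ℝ, 2 < P ∧ 1 / (P - 2) < B ∧ 1 < (q - 2) * (a + 1 / (P - 2)) := by
  have hq : 0 < q - 2 := by
    by_contra hc
    have : (q - 2) * (a + B) ≤ 0 := mul_nonpos_of_nonpos_of_nonneg (not_lt.1 hc) (by linarith)
    linarith
  have h1 : 1 / (q - 2) - a < B := by
    have h2 : 1 / (q - 2) < a + B := by
      rw [div_lt_iff₀ hq, mul_comm]
      exact h
    linarith
  obtain ⟨v, hv1, hv2⟩ := exists_between (max_lt h1 hB)
  have hv0 : 0 < v := lt_of_le_of_lt (le_max_right _ _) hv1
  have hv3 : 1 / (q - 2) - a < v := lt_of_le_of_lt (le_max_left _ _) hv1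
  refine ⟨2 + 1 / v, by linarith [one_div_pos.2 hv0], ?_, ?_⟩
  · rw [add_sub_cancel_left, one_div_one_div]
    exact hv2
  · rw [add_sub_cancel_left, one_div_one_div]
    have h4 : 1 / (q - 2) < a + v := by linarith
    rw [div_lt_iff₀ hq] at h4
    rw [mul_comm]
    exact h4

/-- the bracket as a bilinear map -/
theorem exists_bil {n : ℕ} {B : E n → E n → E n} (hB : LieBracket B) :
    ∃ B' : E n →ₗ[ℝ] E n →ₗ[ℝ] E n, ∀ x y, B' x y = B x y := by
  have hadd : ∀ x y z, B x (y + z) = B x y + B x z := by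
    intro x y z
    rw [hB.antisymm, hB.add, neg_add, ← hB.antisymm, ← hB.antisymm]
  have hsmul : ∀ (c : ℝ) (x y : E n), B x (c • y) = c • B x y := by
    intro c x y
    rw [hB.antisymm, hB.smul, ← smul_neg, ← hB.antisymm]
  exact ⟨LinearMap.mk₂ ℝ B hB.add hB.smul hadd hsmul, fun x y => rfl⟩

/-- the bound under a hypothesis in dimension `1 + m` -/
theorem holds_hyp {n m : ℕ} (hm : 1 ≤ m) (B : E n → E n → E n) (hB : LieBracket B)
    (hl : RankEq B (1 + m)) (hn : 1 + m < n) (P q : ℝ) (hP : 2 < P) (hyp : Hyp 3 m P)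
    (h : 1 < (q - 2) * (((n : ℝ) - (1 + m)) / 2 + 1 / (P - 2))) : Holds B q := by
  obtain ⟨B', hBB⟩ := exists_bil hB
  have hB' : Pool.Agent.H72.Li.CLie B' := by
    refine ⟨fun x => ?_, fun x y z => ?_, fun x y z => ?_⟩
    · rw [hBB]
      have h1 := hB.antisymm x x
      have h2 : (2 : ℝ) • B x x = 0 := by
        rw [two_smul]
        nth_rewrite 2 [h1]
        exact add_neg_cancel _
      rcases smul_eq_zero.1 h2 with h3 | h3
      · norm_num at h3
      · exact h3
    · simp only [hBB]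
      exact hB.jacobi x y z
    · simp only [hBB]
      exact hB.invariant x y z
  obtain ⟨t, ht, htl⟩ := hl
  obtain ⟨d, U, X, Y, α, hR, -, -⟩ := Pool.Agent.H72.Li.exists_root hB' (t := t)
    ⟨fun x hx y hy => by rw [hBB]; exact ht.abelian x hx y hy,
      fun x hx => ht.maximal x fun y hy => by rw [← hBB]; exact hx y hy⟩ htl
  have hdim : n = (1 + m) + 2 * d := by
    obtain ⟨b, _⟩ := hR.basis
    have h := Module.finrank_eq_card_basis b.toBasis
    rw [finrank_euclideanSpace_fin] at h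
    simp only [Fintype.card_sum, Fintype.card_fin] at h
    omega
  have hd : 1 ≤ d := by omega
  have hnd : ((n : ℝ) - (1 + m)) / 2 = d := by
    rw [hdim]
    push_cast
    ring
  rw [hnd] at h
  obtain ⟨C, hC, hT⟩ := Pool.Agent.H72.Li.lie_T hB' hR hm hd P hP hyp q h
  have hq : 0 < q := by
    have h1 : 0 < 1 / (P - 2) := one_div_pos.2 (by linarith)
    have h2 : (0 : ℝ) ≤ d := Nat.cast_nonneg d
    by_contra hcon
    push Not at hcon
    nlinarith
  refine ⟨C ^ (1 / q), by positivity, ?_⟩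
  intro M g hg hgM hinv
  obtain ⟨w0, hw0⟩ : ∃ w : E n, ‖w‖ = 1 := by
    obtain ⟨k, rfl⟩ : ∃ k, n = k + 1 := ⟨n - 1, by omega⟩
    exact ⟨EuclideanSpace.single 0 1, by simp⟩
  have hM0 : 0 ≤ M := (norm_nonneg _).trans (hgM ⟨w0, by simpa using hw0⟩)
  -- the normalised extension
  set f : E n → ℂ := Function.extend Subtype.val (fun x => ((M⁻¹ : ℝ) : ℂ) * g x) (fun _ => 0)
    with hf
  have hfg : ∀ x : sphere (0 : E n) 1, f x = ((M⁻¹ : ℝ) : ℂ) * g x := fun x =>
    Subtype.val_injective.extend_apply _ _ x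
  have hfm : Measurable f :=
    (MeasurableEmbedding.subtype_coe isClosed_sphere.measurableSet).measurable_extend
      (hg.const_mul _) measurable_const
  have hf1 : ∀ w, ‖w‖ = 1 → ‖f w‖ ≤ 1 := by
    intro w hw
    rw [hfg ⟨w, by simpa using hw⟩, norm_mul, Complex.norm_real, Real.norm_of_nonneg
      (inv_nonneg.2 hM0)]
    rcases hM0.eq_or_lt with h0 | h0
    · rw [← h0]; simp
    · rw [inv_mul_le_iff₀ h0, mul_one]
      exact hgM _
  have hfinv : ∀ x v, ‖v‖ = 1 → f (Pool.Agent.H72.Li.ex (B' x) 1 v) = f v := by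
    intro x v hv
    have h1 : ‖Pool.Agent.H72.Li.ex (B' x) 1 v‖ = 1 := by
      rw [Pool.Agent.H72.Li.ex_norm hB', hv]
    rw [hfg ⟨v, by simpa using hv⟩, hfg ⟨_, by simpa using h1⟩]
    congr 1
    refine hinv x (fun t => Pool.Agent.H72.Li.ex (B' x) t v) (fun t => ?_) _ _ ?_ rfl
    · have h2 := Pool.Agent.H72.Li.ex_deriv (B' x) v t
      rw [hBB] at h2
      exact h2
    · exact Pool.Agent.H72.Li.ex_zero (B' x) v
  have hint := hT f hfm hf1 hfinv
  have hgf : ∀ x : sphere (0 : E n) 1, g x = (M : ℂ) * f x := by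
    intro x
    rw [hfg]
    rcases hM0.eq_or_lt with h0 | h0
    · have h1 := hgM x
      rw [← h0] at h1
      rw [norm_le_zero_iff.1 h1]
      simp
    · rw [← mul_assoc, ← Complex.ofReal_mul, mul_inv_cancel₀ h0.ne', Complex.ofReal_one, one_mul]
  obtain ⟨hm1, hle⟩ := ft_int_le q (fun x : sphere (0 : E n) 1 => f x) f hfm fun x => rfl
  have hfun : ft g = fun ξ => (M : ℂ) * ft (fun x : sphere (0 : E n) 1 => f x) ξ := by
    funext ξ
    unfold ft
    rw [← integral_const_mul]
    refine integral_congr_ae (Filter.Eventually.of_forall fun x => ?_)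
    simp only
    rw [hgf]
    ring
  have hmeas : Measurable (ft g) := by
    rw [hfun]
    exact hm1.const_mul _
  have hnorm : eLpNorm (ft g) (ENNReal.ofReal q) ≤ ENNReal.ofReal (C ^ (1 / q) * M) := by
    rw [eLpNorm_eq_lintegral_rpow_enorm_toReal (by simpa using hq) ENNReal.ofReal_ne_top,
      ENNReal.toReal_ofReal hq.le]
    have h1 : ∫⁻ ξ, ‖ft g ξ‖ₑ ^ q ≤ ENNReal.ofReal (M ^ q * C) := by
      calc ∫⁻ ξ, ‖ft g ξ‖ₑ ^ q
          = ∫⁻ ξ, ENNReal.ofReal (M ^ q) *
            ‖ft (fun x : sphere (0 : E n) 1 => f x) ξ‖ₑ ^ q := by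
            rw [hfun]
            refine lintegral_congr fun ξ => ?_
            rw [enorm_mul, ENNReal.mul_rpow_of_nonneg _ _ hq.le, ← ofReal_norm (M : ℂ),
              Complex.norm_real, Real.norm_of_nonneg hM0,
              ENNReal.ofReal_rpow_of_nonneg hM0 hq.le]
        _ = ENNReal.ofReal (M ^ q) * ∫⁻ ξ, ‖ft (fun x : sphere (0 : E n) 1 => f x) ξ‖ₑ ^ q := by
            rw [lintegral_const_mul' _ _ ENNReal.ofReal_ne_top]
        _ ≤ ENNReal.ofReal (M ^ q) * ENNReal.ofReal C := by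
            gcongr
            exact hle.trans hint
        _ = _ := by rw [← ENNReal.ofReal_mul (by positivity)]
    refine (ENNReal.rpow_le_rpow h1 (by positivity)).trans (le_of_eq ?_)
    rw [ENNReal.ofReal_rpow_of_nonneg (by positivity) (by positivity),
      Real.mul_rpow (by positivity) hC.le, ← Real.rpow_mul hM0, mul_one_div_cancel hq.ne',
      Real.rpow_one, mul_comm]
  exact ⟨⟨hmeas.aestronglyMeasurable, hnorm.trans_lt ENNReal.ofReal_lt_top⟩, hnorm⟩

/-- **Theorem.** Invariant densities on the unit sphere of a compact Lie algebra of dimension `n`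
and rank `l`, `2 ≤ l < n`. The estimate with exponent `q` holds in each of the following cases:
the rank is two and `q` is in the full conjectured range `q > 2n/(n-1)`; `q > 2 + 4/(2n-l-1)`;
Stein's estimate is true for the sphere of `ℝ^l` and some `P > 2` with
`(q - 2)((n-l)/2 + 1/(P-2)) > 1`; Stein's conjecture is true in `ℝ^l` and `q > 2n/(n-1)`. -/
theorem result (n l : ℕ) (hl : 2 ≤ l) (hln : l < n) (B : E n → E n → E n) (hB : LieBracket B)
    (hdim : RankEq B l) (q : ℝ) (h : Admissible n l q) : Holds B q := by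
  unfold Admissible at h
  obtain ⟨m, rfl⟩ : ∃ m, l = 1 + m := ⟨l - 1, by omega⟩
  have hm : 1 ≤ m := by omega
  have hm' : (1 : ℝ) ≤ m := by exact_mod_cast hm
  have hn' : (1 : ℝ) + m < n := by exact_mod_cast hln
  have hcast : ((1 + m : ℕ) : ℝ) = 1 + (m : ℝ) := by push_cast; ring
  rw [hcast] at h
  have ha : 0 ≤ ((n : ℝ) - (1 + m)) / 2 := by linarith
  -- the conjectured range
  have hfull : 2 * (n : ℝ) / ((n : ℝ) - 1) < q →
      1 < (q - 2) * (((n : ℝ) - (1 + m)) / 2 + m / 2) := by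
    intro hq
    rw [div_lt_iff₀ (by linarith)] at hq
    nlinarith
  have hA : ∀ P : ℝ, 2 < P → Stein (1 + m) P →
      1 < (q - 2) * (((n : ℝ) - (1 + m)) / 2 + 1 / (P - 2)) → Holds B q := by
    intro P hP hS h
    exact holds_hyp hm B hB hdim hln P q hP
      (hyp_of_rest 3 (by norm_num) hm P (rt_of_stein (1 + m) P (by linarith) hS)) h
  rcases h with ⟨h1, hq⟩ | hq | ⟨P, hP, hS, h⟩ | ⟨hS, hq⟩
  · obtain rfl : m = 1 := by omega
    refine holds_hyp hm B hB hdim hln 4 q (by norm_num) (hyp_one 3 (by norm_num)) ?_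
    have h1 := hfull hq
    push_cast at h1
    norm_num at h1 ⊢
    exact h1
  · have h1 : 1 < (q - 2) * (((n : ℝ) - (1 + m)) / 2 + m / 4) := by
      have h2 : 0 < 2 * (n : ℝ) - (1 + m) - 1 := by linarith
      have h3 : 4 / (2 * (n : ℝ) - (1 + m) - 1) < q - 2 := by linarith
      rw [div_lt_iff₀ h2] at h3
      nlinarith
    obtain ⟨P, hP, hPB, h2⟩ := exists_P _ (m / 4) q ha (by positivity) h1
    refine holds_hyp hm B hB hdim hln P q hP
      (hyp_of_rest 3 (by norm_num) hm P ?_) h2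
    apply stein_tomas (1 + m) (by omega) P
    rw [hcast]
    have hP2 : 0 < P - 2 := by linarith
    rw [div_lt_iff₀ hP2] at hPB
    rw [div_lt_iff₀ (by linarith)]
    nlinarith
  · exact hA P hP hS h
  · obtain ⟨P, hP, hPB, h2⟩ := exists_P _ (m / 2) q ha (by positivity) (hfull hq)
    refine hA P hP (hS P ?_) h2
    have hP2 : 0 < P - 2 := by linarith
    rw [div_lt_iff₀ hP2] at hPB
    rw [div_lt_iff₀ (by linarith)]
    nlinarith

end Pool.Agent.Results.MP_6cbfb8_an.AdInvariant
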