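import Pool.Agent.H97.BP.Main
import Pool.Agent.H97.BP.Sob
set_option autoImplicit false

/-!
# Stein's restriction conjecture after a change of the variable on the sphere

Bohr-Pál type theorem: let `n ≥ 3`, and let `K` be a σ-compact set of continuous densities on the
unit sphere of `ℝ^n` (for instance: one density; countably many; all the densities that satisfy a
Hölder condition of some order; a finitely generated algebra of densities). Then every
homeomorphism of the sphere is a uniform limit of homeomorphisms `T` such that ALL the densities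
`g ∘ T`, `g ∈ K`, satisfy the conclusion of Stein's restriction conjecture in the full range
`p > 2n/(n-1)`.
-/

namespace Pool.Agent.Results.MP_6cbfb8_an.ChangeOfVariables

open MeasureTheory Set Metric Filter Topology
open scoped ENNReal NNReal RealInnerProductSpace

/-- Euclidean space -/
abbrev E (n : ℕ) := EuclideanSpace ℝ (Fin n)

/-- the unit sphere -/
abbrev S (n : ℕ) := sphere (0 : E n) 1

/-- surface measure on the unit sphere -/
noncomputable def sigma (n : ℕ) : Measure (S n) := (volume : Measure (E n)).toSphere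

/-- the Fourier transform of the measure `g dσ` -/
noncomputable def ft {n : ℕ} (g : S n → ℂ) (ξ : E n) : ℂ :=
  ∫ x, Complex.exp (-(2 * Real.pi * ⟪(x : E n), ξ⟫ : ℝ) * Complex.I) * g x ∂(sigma n)

/-- compact sets of continuous functions: a uniform linear modulus of continuity up to `κ` -/
theorem modulus {X : Type*} [MetricSpace X] [CompactSpace X] {K : Set C(X, ℂ)} (hK : IsCompact K)
    {κ : ℝ} (hκ : 0 < κ) :
    ∃ L : ℝ, 0 ≤ L ∧ ∀ g ∈ K, ∀ x y : X, ‖g x - g y‖ ≤ κ + L * dist x y := by
  obtain ⟨M, hM⟩ := hK.isBounded.exists_norm_le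
  have hc : IsCompact (K ×ˢ (univ : Set X)) := hK.prod isCompact_univ
  have hu := hc.uniformContinuousOn_of_continuous
    (f := fun p : C(X, ℂ) × X => p.1 p.2) (by fun_prop)
  rw [Metric.uniformContinuousOn_iff] at hu
  obtain ⟨δ, hδ, hu⟩ := hu κ hκ
  refine ⟨2 * |M| / δ, by positivity, fun g hg x y => ?_⟩
  rcases lt_or_ge (dist x y) δ with h | h
  · have h1 := hu (g, x) ⟨hg, mem_univ _⟩ (g, y) ⟨hg, mem_univ _⟩ (by
      rw [Prod.dist_eq, dist_self]
      exact max_lt hδ h)
    rw [dist_eq_norm] at h1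
    have h2 : 0 ≤ 2 * |M| / δ * dist x y := by positivity
    linarith
  · have h1 : ∀ z, ‖g z‖ ≤ |M| := fun z =>
      (g.norm_coe_le_norm z).trans ((hM g hg).trans (le_abs_self M))
    have h2 : ‖g x - g y‖ ≤ 2 * |M| := by
      refine (norm_sub_le _ _).trans ?_
      linarith [h1 x, h1 y]
    have h3 : 2 * |M| ≤ 2 * |M| / δ * dist x y := by
      rw [div_mul_eq_mul_div, le_div_iff₀ hδ]
      exact mul_le_mul_of_nonneg_left h (by positivity)
    linarith

/-- the theorem for homeomorphisms close to the identity -/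
theorem near_id (n : ℕ) (hn : 3 ≤ n) (K : Set C(S n, ℂ)) (hK : IsSigmaCompact K) (ε : ℝ)
    (hε : 0 < ε) : ∃ T : S n ≃ₜ S n, (∀ x, dist (T x) x ≤ ε) ∧
      ∀ g ∈ K, ∀ p : ℝ, 2 * (n : ℝ) / ((n : ℝ) - 1) < p →
        MemLp (ft fun x => g (T x)) (ENNReal.ofReal p) (volume : Measure (E n)) := by
  classical
  obtain ⟨C, hC, hCK⟩ := hK
  have hmod : ∀ i j : ℕ, ∃ L : ℝ, 0 ≤ L ∧ ∀ g ∈ C i, ∀ x y : S n,
      ‖g x - g y‖ ≤ (1 / 4 : ℝ) ^ j + L * dist x y := fun i j => modulus (hC i) (by positivity)
  choose L hL0 hL using hmod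
  obtain ⟨T, hT1, hT2⟩ := Pool.Agent.H97.BP.gag hn (fun j => ∑ i ∈ Finset.range (j + 1), L i j)
    (fun j => Finset.sum_nonneg fun i _ => hL0 i j) hε
  refine ⟨T, hT1, fun g hg p hp => ?_⟩
  rw [← hCK, mem_iUnion] at hg
  obtain ⟨i, hi⟩ := hg
  have hMg : ∀ x, ‖g x‖ ≤ ‖g‖ := fun x => g.norm_coe_le_norm x
  have hfin := hT2 g ‖g‖ (fun j => if j < i then 2 * ‖g‖ else (1 / 4 : ℝ) ^ j) g.continuous hMg
    (fun j => by split_ifs <;> positivity) (by
      rw [← summable_nat_add_iff i]
      have h1 : (fun j : ℕ => (4 : ℝ) ^ (j + i) *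
          (if j + i < i then 2 * ‖g‖ else (1 / 4 : ℝ) ^ (j + i)) ^ 2) =
          fun j : ℕ => (1 / 4 : ℝ) ^ i * (1 / 4 : ℝ) ^ j := by
        funext j
        rw [if_neg (by omega), ← pow_add, add_comm i j, pow_two, ← mul_assoc, ← mul_pow]
        norm_num
      rw [h1]
      exact (summable_geometric_of_lt_one (by norm_num) (by norm_num)).mul_left _)
    (fun j x y => by
      by_cases hj : j < i
      · simp only [hj, if_true]
        have h1 : ‖g x - g y‖ ≤ 2 * ‖g‖ := by
          refine (norm_sub_le _ _).trans ?_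
          linarith [hMg x, hMg y]
        have h2 : 0 ≤ (∑ i ∈ Finset.range (j + 1), L i j) * dist x y :=
          mul_nonneg (Finset.sum_nonneg fun i _ => hL0 i j) dist_nonneg
        linarith
      · simp only [hj, if_false]
        refine (hL i j g hi x y).trans ?_
        have h1 : L i j ≤ ∑ i ∈ Finset.range (j + 1), L i j :=
          Finset.single_le_sum (f := fun i => L i j) (fun i _ => hL0 i j)
            (Finset.mem_range.2 (by omega))
        have h2 := mul_le_mul_of_nonneg_right h1 (dist_nonneg (x := x) (y := y))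
        linarith)
  have hn' : (3 : ℝ) ≤ n := by exact_mod_cast hn
  have hs : ((n : ℝ) - 1) / (2 * (2 * n - 1)) < 1 / 4 := by
    rw [div_lt_iff₀ (by linarith)]
    linarith
  have hfm := Pool.Agent.H97.BP.sigma_fin n
  have hgT : MemLp (fun x : S n => g (T x)) ∞ (volume : Measure (E n)).toSphere := by
    refine memLp_top_of_bound ?_ ‖g‖ (Eventually.of_forall fun x => hMg _)
    exact (g.continuous.comp T.continuous).aestronglyMeasurable
  exact Pool.Agent.H97.BP.Sob.result n hn (1 / 4) hs (fun x => g (T x)) hgT hfin p hp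

/-- **Stein's restriction conjecture holds after arbitrarily small changes of the variable.** -/
theorem result (n : ℕ) (hn : 3 ≤ n) (K : Set C(S n, ℂ)) (hK : IsSigmaCompact K)
    (R : S n ≃ₜ S n) (ε : ℝ) (hε : 0 < ε) :
    ∃ T : S n ≃ₜ S n, (∀ x, dist (T x) (R x) ≤ ε) ∧
      ∀ g ∈ K, ∀ p : ℝ, 2 * (n : ℝ) / ((n : ℝ) - 1) < p →
        MemLp (ft fun x => g (T x)) (ENNReal.ofReal p) (volume : Measure (E n)) := by
  set F : C(S n, ℂ) → C(S n, ℂ) := fun g => g.comp ⟨R, R.continuous⟩ with hF
  have hFc : Continuous F := ContinuousMap.continuous_precomp _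
  have hK' : IsSigmaCompact (F '' K) := hK.image hFc
  have hRu : UniformContinuous R := CompactSpace.uniformContinuous_of_continuous R.continuous
  obtain ⟨δ, hδ, hRδ⟩ := Metric.uniformContinuous_iff.1 hRu ε hε
  obtain ⟨T0, hT0, hT1⟩ := near_id n hn (F '' K) hK' (δ / 2) (by positivity)
  refine ⟨T0.trans R, fun x => ?_, fun g hg p hp => ?_⟩
  · have h1 : dist (T0 x) x < δ := lt_of_le_of_lt (hT0 x) (by linarith)
    exact (hRδ h1).le
  · exact hT1 (F g) ⟨g, hg, rfl⟩ p hp

end Pool.Agent.Results.MP_6cbfb8_an.ChangeOfVariables
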