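import Mathlib
import Pool.Agent.H72.Is.K9
set_option autoImplicit false

/-!
# Stein's restriction conjecture: densities rough across an isoparametric family

A real polynomial `P` on `ℝ^n`, homogeneous of degree `g`, is a Cartan–Münzner polynomial with
multiplicities `a, b` if `|∇P|^2 = g^2 |x|^(2g-2)` and `ΔP = g^2 (b-a)/2 |x|^(g-2)`, where
`g (a + b) = 2 (n - 2)`. The level sets of `P` on the unit sphere are the isoparametric families of
hypersurfaces of the sphere (Cartan, Münzner) with `g` principal curvatures of the multiplicities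
`a`, `b`. The families with `g = 4` contain the infinitely many inhomogeneous families of Ferus,
Karcher and Münzner, `P = |x|^4 - 2 ∑ ⟨A_i x, x⟩^2` for a symmetric Clifford system `A_0, …, A_m`
(`fkm_eq` below).

We prove Stein's conjectured bound, in the full range `q > 2n/(n-1)`, for the densities
`G(x) = Φ(P(x), x)` on the unit sphere of `ℝ^n`, `n` even, where `P` is a Cartan–Münzner polynomial of
degree `g ≥ 2` and `Φ(s, x)` is measurable in `s` and of class `C^(n+1)` in `x`. With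
`Φ(s, x) = γ(s)` these are all the bounded densities constant on the level sets of `P`. In general
the density is smooth along the leaves of the family and arbitrarily rough across them.
-/

namespace Pool.Agent.Results.MP_6cbfb8_an.Isoparametric

open MeasureTheory Set Metric Complex
open Pool.Agent.H789R2.FR (E sg)
open Pool.Agent.H438R2.BR
open scoped ENNReal RealInnerProductSpace

/-- surface measure on the unit sphere -/
noncomputable def sigma (n : ℕ) : Measure (sphere (0 : E n) 1) := (volume : Measure (E n)).toSphere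

/-- the Fourier transform of the measure `G dσ` -/
noncomputable def ft {n : ℕ} (G : sphere (0 : E n) 1 → ℂ) (ξ : E n) : ℂ :=
  ∫ x, Complex.exp (-(2 * Real.pi * ⟪(x : E n), ξ⟫ : ℝ) * I) * G x ∂(sigma n)

/-- the value of the polynomial `P` at the point `x` -/
noncomputable def value {n : ℕ} (P : MvPolynomial (Fin n) ℝ) (x : E n) : ℝ :=
  MvPolynomial.eval (fun i => x i) P

/-- `P` is a Cartan–Münzner polynomial on `ℝ^n` of degree `g` with the multiplicities `a`, `b`:
it is homogeneous of degree `g`, `|∇P|^2 = g^2 |x|^(2g-2)`, `ΔP = g^2 (b-a)/2 |x|^(g-2)`, and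
`g (a+b) = 2 (n-2)`. -/
structure CartanMunzner (n g a b : ℕ) (P : MvPolynomial (Fin n) ℝ) : Prop where
  hom : P.IsHomogeneous g
  grad : ∀ x : E n, ∑ i, value (MvPolynomial.pderiv i P) x ^ 2 = (g : ℝ) ^ 2 * ‖x‖ ^ (2 * g - 2)
  lapl : ∀ x : E n, ∑ i, value (MvPolynomial.pderiv i (MvPolynomial.pderiv i P)) x =
    (g : ℝ) ^ 2 * ((b : ℝ) - a) / 2 * ‖x‖ ^ (g - 2)
  dim : g * (a + b) + 4 = 2 * n

/-- `Φ(s, x)` is measurable, of class `C^(n+1)` in `x`, with derivatives in `x` of order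
`0, ..., n+1` bounded by `M` on the ball `|x| ≤ 2`, uniformly in `s` -/
structure SmoothFamily {n : ℕ} (Φ : ℝ → E n → ℂ) (M : ℝ) : Prop where
  meas : Measurable (fun q : ℝ × E n => Φ q.1 q.2)
  smooth : ∀ s, ContDiff ℝ (n + 1 : ℕ) (Φ s)
  bound : ∀ s, ∀ j ≤ n + 1, ∀ x, ‖x‖ ≤ 2 → ‖iteratedFDeriv ℝ j (Φ s) x‖ ≤ M

/-! ### Proofs -/

theorem value_pv {n : ℕ} (P : MvPolynomial (Fin n) ℝ) : value P = Pool.Agent.H72.Is.pv P := rfl

/-- a symmetric Clifford system -/
structure CliffordSystem (n m : ℕ) (A : Fin (m + 1) → Matrix (Fin n) (Fin n) ℝ) : Prop where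
  symm : ∀ i, (A i).transpose = A i
  rel : ∀ i j, A i * A j + A j * A i = if i = j then 2 else 0

/-- the polynomials of Ferus, Karcher and Münzner satisfy the equations -/
theorem fkm_eq (l m : ℕ) (A : Fin (m + 1) → Matrix (Fin (2 * l)) (Fin (2 * l)) ℝ) (hm : 1 ≤ m)
    (hl : m + 2 ≤ l) (hA : CliffordSystem (2 * l) m A) :
    CartanMunzner (2 * l) 4 m (l - m - 1) (Pool.Agent.H72.Is.fkm A) := by
  have hC : Pool.Agent.H72.Is.Cliff (2 * l) m A := ⟨hA.symm, hA.rel⟩
  have hcast : ((l - m - 1 : ℕ) : ℝ) = (l : ℝ) - m - 1 := by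
    rw [Nat.cast_sub (by omega), Nat.cast_sub (by omega), Nat.cast_one]
  refine ⟨Pool.Agent.H72.Is.fkm_hom A, hC.grad, fun x => ?_, by omega⟩
  have h := hC.lapl hm x
  rw [show (4 - 2 : ℕ) = 2 from rfl, hcast]
  simp only [value_pv]
  rw [h]
  push_cast
  ring

theorem aux (n g a b : ℕ) (P : MvPolynomial (Fin n) ℝ) (hn : Even n) (hg : 2 ≤ g) (ha : 1 ≤ a)
    (hb : 1 ≤ b) (hP : CartanMunzner n g a b P) (q : ℝ) (hq : 2 * (n : ℝ) / (n - 1) < q) :
    ∃ C : ℝ, 0 < C ∧ ∀ (Φ : ℝ → E n → ℂ) (M : ℝ), Fam.Nice Φ M →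
      ∫⁻ ξ, ENNReal.ofReal (‖∫ w, Complex.exp (-((2 * Real.pi * ⟪w, ξ⟫ : ℝ) : ℂ) * I) *
        Φ (value P w) w ∂(sg n)‖ ^ q) ≤ ENNReal.ofReal (C * M ^ q) := by
  have hdim := hP.dim
  have hga : 2 * 2 ≤ g * (a + b) := Nat.mul_le_mul hg (by omega)
  have hn4 : 4 ≤ n := by omega
  have hnr : (4 : ℝ) ≤ n := by exact_mod_cast hn4
  have hq1 : 1 < q := by
    rw [div_lt_iff₀ (by linarith)] at hq
    nlinarith
  have hiso := Pool.Agent.H72.Is.iso_of a b P hg ha hb hP.hom hP.grad hP.lapl hP.dim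
  obtain ⟨ν, rfl⟩ : ∃ ν, n = 2 * ν + 2 := by
    obtain ⟨k, hk⟩ := hn
    exact ⟨k - 1, by omega⟩
  have hq' : 2 * (2 * (ν : ℝ) + 2) / (2 * ν + 1) < q := by
    push_cast at hq
    have e : 2 * (ν : ℝ) + 2 - 1 = 2 * ν + 1 := by ring
    rw [e] at hq
    exact hq
  obtain ⟨C, hC, hgood⟩ := Pool.Agent.H72.Is.good_pv hiso hq'
  obtain ⟨C', hC', h⟩ := Fam.fam_unif (n := 2 * ν + 2) q hq1 C hC
  exact ⟨C', hC', fun Φ M hΦ => h (value P) (Pool.Agent.H72.Is.pv_cont P).measurable hgood Φ M hΦ⟩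

/-- **Theorem.** Let `n` be even, `g ≥ 2`, `a, b ≥ 1`, let `P` be a Cartan–Münzner polynomial on `ℝ^n`
of degree `g` with the multiplicities `a`, `b`, and let `q > 2n/(n-1)`. Then there is `C` such that for
every family `Φ(s, x)` smooth in `x` with bound `M`, and every density `G` on the unit sphere with
`G(x) = Φ(P(x), x)` almost everywhere, `‖ft G‖_q ≤ C M`. -/
theorem result (n g a b : ℕ) (P : MvPolynomial (Fin n) ℝ) (hn : Even n) (hg : 2 ≤ g) (ha : 1 ≤ a)
    (hb : 1 ≤ b) (hP : CartanMunzner n g a b P) (q : ℝ) (hq : 2 * (n : ℝ) / (n - 1) < q) :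
    ∃ C : ℝ, 0 < C ∧ ∀ (Φ : ℝ → E n → ℂ) (M : ℝ), SmoothFamily Φ M →
      ∀ G : sphere (0 : E n) 1 → ℂ, (∀ᵐ x ∂(sigma n), G x = Φ (value P x) x) →
        MemLp (ft G) (ENNReal.ofReal q) ∧
        eLpNorm (ft G) (ENNReal.ofReal q) ≤ ENNReal.ofReal (C * M) := by
  obtain ⟨C, hC, h⟩ := aux n g a b P hn hg ha hb hP q hq
  refine ⟨C ^ (1 / q), by positivity, ?_⟩
  intro Φ M hΦ G hG
  obtain ⟨hΦm, hΦs, hΦb⟩ := hΦ
  have hdim := hP.dim
  have hga : 2 * 2 ≤ g * (a + b) := Nat.mul_le_mul hg (by omega)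
  have hn4 : 4 ≤ n := by omega
  have hnr : (4 : ℝ) ≤ n := by exact_mod_cast hn4
  have hq0 : 0 < q := by
    rw [div_lt_iff₀ (by linarith)] at hq
    nlinarith
  have hM0 : 0 ≤ M := (norm_nonneg _).trans (hΦb 0 0 (Nat.zero_le _) 0 (by simp))
  have hfin : IsFiniteMeasure (sg n) := Pool.Agent.H789R2.FR.sg_finite _
  have hτm : Measurable (value P : E n → ℝ) := (Pool.Agent.H72.Is.pv_cont P).measurable
  set H : E n → ℂ := fun ξ => ∫ w, Complex.exp (-((2 * Real.pi * ⟪w, ξ⟫ : ℝ) : ℂ) * I) *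
        Φ (value P w) w ∂(sg n) with hH
  have hm3 : Measurable fun p : E n × E n =>
      Complex.exp (-((2 * Real.pi * ⟪p.2, p.1⟫ : ℝ) : ℂ) * I) * Φ (value P p.2) p.2 := by
    have m0 : Measurable fun q : E n × E n => (value P q.2, q.2) :=
      (hτm.comp measurable_snd).prodMk measurable_snd
    have m1' := Measurable.comp hΦm m0
    have m1 : Measurable fun q : E n × E n => Φ (value P q.2) q.2 := m1'
    have m2 : Measurable fun q : E n × E n => (⟪q.2, q.1⟫ : ℝ) :=
      (continuous_snd.inner continuous_fst).measurable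
    have m3 : Measurable fun q : E n × E n =>
        Complex.exp (-((2 * Real.pi * ⟪q.2, q.1⟫ : ℝ) : ℂ) * I) :=
      Complex.measurable_exp.comp
        ((Complex.measurable_ofReal.comp (m2.const_mul _)).neg.mul_const I)
    exact m3.mul m1
  have hHm : Measurable H := by
    apply StronglyMeasurable.measurable
    apply StronglyMeasurable.integral_prod_right (f := fun (ξ w : E n) =>
      Complex.exp (-((2 * Real.pi * ⟪w, ξ⟫ : ℝ) : ℂ) * I) * Φ (value P w) w)
    exact hm3.stronglyMeasurable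
  have hfun : ft G = H := by
    funext ξ
    have m1 : Measurable fun w : E n =>
        Complex.exp (-((2 * Real.pi * ⟪w, ξ⟫ : ℝ) : ℂ) * I) * Φ (value P w) w := by
      have h1 : Measurable fun w : E n => (ξ, w) := measurable_prodMk_left
      have h2 := Measurable.comp hm3 h1
      exact h2
    rw [hH]
    simp only [sg, ft, sigma]
    rw [integral_map measurable_subtype_coe.aemeasurable m1.aestronglyMeasurable]
    apply integral_congr_ae
    filter_upwards [hG] with x hx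
    rw [hx]
  rw [hfun]
  have hnice : Fam.Nice Φ M := ⟨hΦm, hΦs, hΦb⟩
  have hb := h Φ M hnice
  have hp1 : ENNReal.ofReal q ≠ 0 := by simpa using hq0
  have e1 : eLpNorm H (ENNReal.ofReal q) volume ≤ ENNReal.ofReal (C ^ (1 / q) * M) := by
    rw [eLpNorm_eq_lintegral_rpow_enorm_toReal hp1 ENNReal.ofReal_ne_top,
      ENNReal.toReal_ofReal hq0.le]
    have h3 : ∀ x : E n, ‖H x‖ₑ ^ q = ENNReal.ofReal (‖H x‖ ^ q) := by
      intro x
      rw [← ofReal_norm, ENNReal.ofReal_rpow_of_nonneg (norm_nonneg _) hq0.le]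
    simp_rw [h3]
    calc _ ≤ (ENNReal.ofReal (C * M ^ q)) ^ (1 / q) := by
          gcongr
      _ = _ := by
          rw [ENNReal.ofReal_rpow_of_nonneg (by positivity) (by positivity),
            Real.mul_rpow hC.le (by positivity), ← Real.rpow_mul hM0, mul_one_div_cancel hq0.ne',
            Real.rpow_one]
  exact ⟨⟨hHm.aestronglyMeasurable, e1.trans_lt ENNReal.ofReal_lt_top⟩, e1⟩

end Pool.Agent.Results.MP_6cbfb8_an.Isoparametric
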