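import Pool.Agent.H97.NF.Osc
import Pool.Agent.H97.NF.Glue
import Pool.Agent.H97.L.T3997aac3.Q193.RD.Sum
set_option autoImplicit false

/-!
# Stein's restriction conjecture: nonlinear functions of good densities are arbitrary densities

Let `n ≥ 3`. For a bounded density `g` on the unit sphere of `ℝ^n` let `ft g` be the Fourier
transform of `g dσ`.

* Let `f : ℝ → ℂ` be continuous, and not affine near `c0`. Then there is a continuous real density
  `W`, smooth away from one (prescribed) point, and as close to the constant `c0` as we please,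
  such that `W` satisfies the conclusion of Stein's conjecture in the full range `p > 2n/(n-1)`,
  while `f ∘ W` decides the conjecture, exponent by exponent: if `ft (f ∘ W) ∈ L^p`
  (`p > 2n/(n-1)`), then `ft g ∈ L^p` for all bounded densities `g`.
* Hence, for every continuous `F : ℂ → ℂ` which is not real-affine and every set `P` of exponents
  `> 2n/(n-1)`: the set of the CONTINUOUS densities which satisfy the conjecture for the exponents
  in `P` is closed under `g ↦ F ∘ g` if and only if ALL BOUNDED densities satisfy the conjecture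
  for the exponents in `P`. For instance this set is closed under `g ↦ g²`, or under `g ↦ |g|`, or
  under `g ↦ |Re g|`, if and only if the conjecture holds for the exponents in `P`.
-/

namespace Pool.Agent.Results.MP_6cbfb8_an.NonlinearFunctionals

open MeasureTheory Set Metric Filter Topology
open scoped ENNReal NNReal RealInnerProductSpace ContDiff

/-- Euclidean space -/
abbrev E (n : ℕ) := EuclideanSpace ℝ (Fin n)

/-- the unit sphere -/
abbrev S (n : ℕ) := sphere (0 : E n) 1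

/-- surface measure on the unit sphere -/
noncomputable def sigma (n : ℕ) : Measure (S n) := (volume : Measure (E n)).toSphere

/-- the Fourier transform of the measure `g dσ` -/
noncomputable def ft {n : ℕ} (g : S n → ℂ) (ξ : E n) : ℂ :=
  ∫ x, Complex.exp (-(2 * Real.pi * ⟪(x : E n), ξ⟫ : ℝ) * Complex.I) * g x ∂(sigma n)

/-- `f` is not affine near `c` -/
def NotAffineNear (f : ℝ → ℂ) (c : ℝ) : Prop :=
  ∀ δ : ℝ, 0 < δ → ¬ ∃ a b : ℂ, ∀ s : ℝ, |s - c| < δ → f s = a + b * s

open Pool.Agent.H789R2.FR (sg sg_ae sg_inv sg_finite)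
open Pool.Agent.Q97.RS (ch Fh)
open Pool.Agent.Q193.RD
open Pool.Agent.H97.NF

lemma ft_eq {n : ℕ} (G : E n → ℂ) : ft (fun x : S n => G x) = Fh (sg n) G := by
  funext ξ
  unfold ft Fh sg
  rw [(MeasurableEmbedding.subtype_coe isClosed_sphere.measurableSet).integral_map]
  rfl

lemma ft_congr {n : ℕ} {g h : S n → ℂ} (hgh : g =ᵐ[sigma n] h) : ft g = ft h := by
  funext ξ
  unfold ft
  refine integral_congr_ae ?_
  filter_upwards [hgh] with x hx
  rw [hx]

/-- Bounded densities extend to bounded functions. -/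
lemma lift {n : ℕ} {g : S n → ℂ} (hg : MemLp g ∞ (sigma n)) : ∃ G : E n → ℂ, Measurable G ∧
    (∀ x, ‖G x‖ ≤ (eLpNorm g ∞ (sigma n)).toReal) ∧ (fun x : S n => G x) =ᵐ[sigma n] g := by
  classical
  set M : ℝ := (eLpNorm g ∞ (sigma n)).toReal with hM
  have hM0 : 0 ≤ M := ENNReal.toReal_nonneg
  have hg'm : Measurable (hg.1.mk g) := hg.1.stronglyMeasurable_mk.measurable
  have hb : ∀ᵐ x ∂(sigma n), ‖g x‖ ≤ M := by
    have h1 := ae_le_eLpNormEssSup (f := g) (μ := sigma n)
    filter_upwards [h1] with x hx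
    rw [← eLpNorm_exponent_top] at hx
    have h2 := ENNReal.toReal_mono hg.2.ne hx
    rwa [toReal_enorm] at h2
  set g2 : S n → ℂ := {x : S n | ‖hg.1.mk g x‖ ≤ M}.indicator (hg.1.mk g) with hg2
  have hg2m : Measurable g2 :=
    hg'm.indicator (measurableSet_le hg'm.norm measurable_const)
  refine ⟨ex0 g2, ex0_meas hg2m, fun x => ex0_norm hM0 (fun z => ?_) x, ?_⟩
  · rw [hg2]
    by_cases hz : z ∈ {x : S n | ‖hg.1.mk g x‖ ≤ M}
    · rw [indicator_of_mem hz]
      exact hz
    · rw [indicator_of_notMem hz, norm_zero]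
      exact hM0
  · filter_upwards [hb, hg.1.ae_eq_mk] with x hx1 hx2
    have h1 : x ∈ {x : S n | ‖hg.1.mk g x‖ ≤ M} := by
      change ‖hg.1.mk g x‖ ≤ M
      rw [← hx2]
      exact hx1
    rw [ex0_of, hg2, indicator_of_mem h1, ← hx2]

/-- Jensen's functional equation -/
lemma jensen {X : Type*} [NormedAddCommGroup X] [NormedSpace ℝ X] {F : X → ℂ} (hF : Continuous F)
    (h : ∀ c u, F (c + u) + F (c - u) = 2 * F c) : ∃ L : X →L[ℝ] ℂ, ∀ z, F z = F 0 + L z := by
  have h1 : ∀ x y, F x + F y = 2 * F ((1 / 2 : ℝ) • (x + y)) := by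
    intro x y
    have h2 := h ((1 / 2 : ℝ) • (x + y)) ((1 / 2 : ℝ) • (x - y))
    rw [← smul_add, ← smul_sub] at h2
    have e1 : (1 / 2 : ℝ) • (x + y + (x - y)) = x := by
      rw [show x + y + (x - y) = (2 : ℝ) • x by rw [two_smul]; abel, smul_smul]
      norm_num
    have e2 : (1 / 2 : ℝ) • (x + y - (x - y)) = y := by
      rw [show x + y - (x - y) = (2 : ℝ) • y by rw [two_smul]; abel, smul_smul]
      norm_num
    rw [e1, e2] at h2
    exact h2
  have h2 : ∀ x y, F (x + y) = F x + F y - F 0 := by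
    intro x y
    have h3 := h1 (x + y) 0
    rw [add_zero, ← h1 x y] at h3
    rw [← h3]
    ring
  let L0 : X →+ ℂ :=
    { toFun := fun z => F z - F 0
      map_zero' := sub_self _
      map_add' := fun x y => by
        rw [h2 x y]
        ring }
  refine ⟨L0.toRealLinearMap (hF.sub continuous_const), fun z => ?_⟩
  change F z = F 0 + (F z - F 0)
  ring

lemma p0_one {n : ℕ} (hn : 3 ≤ n) : 1 ≤ 2 * (n : ℝ) / (n - 1) := by
  have h1 : (3 : ℝ) ≤ n := by exact_mod_cast hn
  rw [le_div_iff₀ (by linarith)]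
  linarith

/-- the constant density -/
lemma one_good {n : ℕ} (hn : 3 ≤ n) {p : ℝ} (hp : 2 * (n : ℝ) / (n - 1) < p) :
    eLpNorm (Fh (sg n) (fun _ => (1 : ℂ))) (ENNReal.ofReal p) volume < ⊤ := by
  obtain ⟨C, hC, hgood⟩ := Pool.Agent.H438R2.ZD.good_coord n hn p hp
  have : Nonempty (Fin n) := ⟨⟨0, by omega⟩⟩
  obtain ⟨u, hu⟩ : ∃ u : E n, ‖u‖ = 1 := by
    obtain ⟨p, hp⟩ := (NormedSpace.sphere_nonempty (x := (0 : E n)) (r := 1)).2 zero_le_one
    exact ⟨p, by simpa using hp⟩
  have hpp : 0 < p := by linarith [p0_one hn]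
  have hp0' : ENNReal.ofReal p ≠ 0 := by simpa using hpp
  rw [eLpNorm_lt_top_iff_lintegral_rpow_enorm_lt_top hp0' ENNReal.ofReal_ne_top,
    ENNReal.toReal_ofReal hpp.le]
  have h1 := hgood u hu (fun _ => 1) 1 measurable_const (fun _ => by simp)
  refine lt_of_le_of_lt (le_trans (le_of_eq ?_) h1) ENNReal.ofReal_lt_top
  refine lintegral_congr fun ξ => ?_
  have h2 : Fh (sg n) (fun _ => (1 : ℂ)) ξ =
      Pool.Agent.H438R2.BR.Fam.U (fun w => ⟪u, w⟫) (fun _ => (1 : ℂ)) ξ := rfl
  rw [h2, ← ofReal_norm, ENNReal.ofReal_rpow_of_nonneg (norm_nonneg _) hpp.le]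

/-- Jensen's functional equation on an interval -/
lemma jensen_Icc {f : ℝ → ℂ} (hf : Continuous f) {a b : ℝ} (hab : a < b)
    (h : ∀ c u, c - u ∈ Icc a b → c + u ∈ Icc a b → f (c + u) + f (c - u) = 2 * f c) :
    ∃ A B : ℂ, ∀ s ∈ Icc a b, f s = A + B * s := by
  have hba : ((b : ℂ) - a) ≠ 0 := by
    rw [← Complex.ofReal_sub, Complex.ofReal_ne_zero]
    linarith
  set B : ℂ := (f b - f a) / (b - a) with hB
  set A : ℂ := f a - B * a with hA
  set g : ℝ → ℂ := fun s => f s - (A + B * s) with hg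
  have hgc : Continuous g := by fun_prop
  have hga : g a = 0 := by
    simp only [hg, hA]
    ring
  have hgb : g b = 0 := by
    simp only [hg, hA]
    have : B * (b - a) = f b - f a := by rw [hB]; field_simp
    linear_combination -this
  have hgj : ∀ c u, c - u ∈ Icc a b → c + u ∈ Icc a b → g (c + u) + g (c - u) = 2 * g c := by
    intro c u h1 h2
    simp only [hg]
    have := h c u h1 h2
    push_cast
    linear_combination this
  obtain ⟨s0, hs0, hmax⟩ := (isCompact_Icc (a := a) (b := b)).exists_isMaxOn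
    ⟨a, left_mem_Icc.2 hab.le⟩ hgc.norm.continuousOn
  have hmax' : ∀ s ∈ Icc a b, ‖g s‖ ≤ ‖g s0‖ := fun s hs => hmax hs
  have key : ‖g s0‖ = 0 := by
    have h0 : ‖2 * g s0‖ ≤ ‖g s0‖ := by
      rcases le_total (s0 - a) (b - s0) with h1 | h1
      · have e1 := hgj s0 (s0 - a) ⟨by linarith, by linarith [hs0.2]⟩
          ⟨by linarith [hs0.1], by linarith⟩
        rw [sub_sub_cancel, hga, add_zero] at e1
        rw [← e1]
        exact hmax' _ ⟨by linarith [hs0.1], by linarith⟩
      · have e1 := hgj s0 (b - s0) ⟨by linarith, by linarith [hs0.2]⟩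
          ⟨by linarith [hs0.1], by linarith⟩
        rw [add_sub_cancel, hgb, zero_add] at e1
        rw [← e1]
        exact hmax' _ ⟨by linarith, by linarith [hs0.2]⟩
    rw [norm_mul] at h0
    have h2 : ‖(2 : ℂ)‖ = 2 := by norm_num
    rw [h2] at h0
    have := norm_nonneg (g s0)
    linarith
  refine ⟨A, B, fun s hs => ?_⟩
  have h1 := hmax' s hs
  rw [key] at h1
  have h2 := norm_le_zero_iff.1 h1
  exact sub_eq_zero.1 h2

lemma notAffine_local {f : ℝ → ℂ} (hf : Continuous f) {c0 : ℝ} (h : NotAffineNear f c0) (δ : ℝ)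
    (hδ : 0 < δ) : ∃ c u : ℝ, |c - c0| < δ ∧ |u| < δ ∧ f (c + u) + f (c - u) ≠ 2 * f c := by
  by_contra hcon
  push Not at hcon
  obtain ⟨A, B, hAB⟩ := jensen_Icc hf (a := c0 - δ / 2) (b := c0 + δ / 2) (by linarith)
    (fun c u h1 h2 => hcon c u (by
      rw [abs_lt]
      constructor <;> linarith [h1.1, h1.2, h2.1, h2.2]) (by
      rw [abs_lt]
      constructor <;> linarith [h1.1, h1.2, h2.1, h2.2]))
  refine h (δ / 2) (half_pos hδ) ⟨A, B, fun s hs => hAB s ?_⟩
  rw [abs_lt] at hs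
  constructor <;> linarith [hs.1, hs.2]

lemma exists_notAffine {f : ℝ → ℂ} (hna : ¬ ∃ a b : ℂ, ∀ s : ℝ, f s = a + b * s) :
    ∃ c0, NotAffineNear f c0 := by
  by_contra hcon
  unfold NotAffineNear at hcon
  push Not at hcon
  choose δ hδ A B hAB using hcon
  have hder : ∀ c s, |s - c| < δ c → HasDerivAt f (B c) s := by
    intro c s hs
    have h1 : HasDerivAt (fun s : ℝ => A c + B c * (s : ℂ)) (B c) s := by
      have h2 := (Complex.ofRealCLM.hasDerivAt (x := s)).const_mul (B c)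
      have h3 := h2.const_add (A c)
      simpa using h3
    refine h1.congr_of_eventuallyEq ?_
    have h4 : ∀ᶠ z in 𝓝 s, |z - c| < δ c :=
      ((continuous_id.sub continuous_const).abs.tendsto s).eventually (gt_mem_nhds hs)
    filter_upwards [h4] with z hz
    exact hAB c z hz
  have hself : ∀ c, |c - c| < δ c := fun c => by rw [sub_self, abs_zero]; exact hδ c
  have hlc : IsLocallyConstant B := by
    rw [IsLocallyConstant.iff_eventually_eq]
    intro c
    have h4 : ∀ᶠ z in 𝓝 c, |z - c| < δ c :=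
      ((continuous_id.sub continuous_const).abs.tendsto c).eventually (gt_mem_nhds (hself c))
    filter_upwards [h4] with z hz
    exact (hder z z (hself z)).unique (hder c z hz)
  have hB : ∀ c, B c = B 0 := fun c => hlc.apply_eq_of_preconnectedSpace c 0
  have hdf : ∀ s, HasDerivAt (fun s : ℝ => f s - B 0 * (s : ℂ)) 0 s := by
    intro s
    have h1 := hder s s (hself s)
    rw [hB] at h1
    have h2 := (Complex.ofRealCLM.hasDerivAt (x := s)).const_mul (B 0)
    have h3 := h1.sub h2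
    have e1 : B 0 - B 0 * Complex.ofRealCLM 1 = 0 := by simp
    rw [e1] at h3
    exact h3
  have hc := is_const_of_deriv_eq_zero (fun s => (hdf s).differentiableAt)
    (fun s => (hdf s).deriv)
  refine hna ⟨f 0, B 0, fun s => ?_⟩
  have h5 := hc s 0
  simp only [Complex.ofReal_zero, mul_zero, sub_zero] at h5
  linear_combination h5

/-- the main construction -/
lemma main {n : ℕ} (hn : 3 ≤ n) {f : ℝ → ℂ} (hf : Continuous f) {c0 : ℝ}
    (hna : NotAffineNear f c0) (z0 : E n) (hz0 : ‖z0‖ = 1) {δ0 : ℝ} (hδ0 : 0 < δ0) :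
    ∃ W : E n → ℝ, Continuous W ∧ ContDiffOn ℝ ∞ W {z0}ᶜ ∧ W z0 = c0 ∧
      (∀ x, |W x - c0| ≤ δ0) ∧
      (∀ p : ℝ, 2 * (n : ℝ) / (n - 1) < p →
        eLpNorm (Fh (sg n) (fun x => (W x : ℂ))) (ENNReal.ofReal p) volume < ⊤) ∧
      ∀ p : ℝ, 2 * (n : ℝ) / (n - 1) < p →
        eLpNorm (Fh (sg n) (fun x => f (W x))) (ENNReal.ofReal p) volume < ⊤ →
        ∀ g : E n → ℂ, Bd g → eLpNorm (Fh (sg n) g) (ENNReal.ofReal p) volume < ⊤ := by
  have := sg_finite n
  obtain ⟨Y, Z, hY1, hY2, hY3, hZ1, hZ2, hYZ, hZ3⟩ := osc n hn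
  have hd : 2 ≤ Module.finrank ℝ (E n) := by
    simp only [finrank_euclideanSpace, Fintype.card_fin]
    omega
  exact glue (sg n) (sg_ae n) (fun L => sg_inv L) hd z0 hz0 (p0_one hn)
    hY1 hY2 hY3 hZ1 hZ2 hYZ hZ3 (fun p hp => one_good hn hp) hf (notAffine_local hf hna) hδ0

/-- **Nonlinear functions of good densities.** -/
theorem result (n : ℕ) (hn : 3 ≤ n) :
    (∀ (f : ℝ → ℂ) (c0 : ℝ), Continuous f → NotAffineNear f c0 → ∀ (z0 : S n) (δ0 : ℝ), 0 < δ0 →
      ∃ W : E n → ℝ, Continuous W ∧ ContDiffOn ℝ ∞ W {(z0 : E n)}ᶜ ∧ W z0 = c0 ∧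
        (∀ x, |W x - c0| ≤ δ0) ∧
        (∀ p : ℝ, 2 * (n : ℝ) / (n - 1) < p →
          MemLp (ft fun x : S n => (W x : ℂ)) (ENNReal.ofReal p)) ∧
        ∀ p : ℝ, 2 * (n : ℝ) / (n - 1) < p →
          MemLp (ft fun x : S n => f (W x)) (ENNReal.ofReal p) →
          ∀ g : S n → ℂ, MemLp g ∞ (sigma n) → MemLp (ft g) (ENNReal.ofReal p)) ∧
    ∀ F : ℂ → ℂ, Continuous F → (¬ ∃ (a : ℂ) (L : ℂ →L[ℝ] ℂ), ∀ z, F z = a + L z) →
      ∀ P : Set ℝ, (∀ p ∈ P, 2 * (n : ℝ) / (n - 1) < p) →
        ((∀ g : C(S n, ℂ), (∀ p ∈ P, MemLp (ft g) (ENNReal.ofReal p)) →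
            ∀ p ∈ P, MemLp (ft fun x => F (g x)) (ENNReal.ofReal p)) ↔
          ∀ g : S n → ℂ, MemLp g ∞ (sigma n) → ∀ p ∈ P, MemLp (ft g) (ENNReal.ofReal p)) := by
  have := sg_finite n
  have hlift : ∀ {p : ℝ}, (∀ g : E n → ℂ, Bd g →
      eLpNorm (Fh (sg n) g) (ENNReal.ofReal p) volume < ⊤) → ∀ g : S n → ℂ,
      MemLp g ∞ (sigma n) → MemLp (ft g) (ENNReal.ofReal p) := by
    intro p h g hg
    obtain ⟨G, hGm, hGb, hGg⟩ := lift hg
    have hGB : Bd G := ⟨hGm, _, hGb⟩
    rw [← ft_congr hGg, ft_eq]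
    exact ⟨(Fh_sm (sg n) hGB).aestronglyMeasurable, h G hGB⟩
  have hWbd : ∀ {W : E n → ℝ} {c0 δ0 : ℝ}, Continuous W → (∀ x, |W x - c0| ≤ δ0) →
      Bd (fun x => ((W x : ℝ) : ℂ)) := by
    intro W c0 δ0 hWc hWb
    refine ⟨Complex.measurable_ofReal.comp hWc.measurable, |c0| + δ0, fun x => ?_⟩
    rw [Complex.norm_real, Real.norm_eq_abs]
    have h1 : W x = c0 + (W x - c0) := by ring
    rw [h1]
    exact (abs_add_le _ _).trans (add_le_add le_rfl (hWb x))
  refine ⟨fun f c0 hf hna z0 δ0 hδ0 => ?_, fun F hF hna P hP => ⟨fun hcl => ?_,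
    fun hall g hg p hp => ?_⟩⟩
  · obtain ⟨W, hWc, hWs, hW0, hWb, hWg, hWd⟩ := main hn hf hna z0 (by simp) hδ0
    refine ⟨W, hWc, hWs, hW0, hWb, fun p hp => ?_, fun p hp hm => hlift (hWd p hp ?_)⟩
    · rw [ft_eq (fun x => ((W x : ℝ) : ℂ))]
      exact ⟨(Fh_sm (sg n) (hWbd hWc hWb)).aestronglyMeasurable, hWg p hp⟩
    · rw [ft_eq (fun x => f (W x))] at hm
      exact hm.2
  · obtain ⟨c, u, hcu⟩ : ∃ c u, F (c + u) + F (c - u) ≠ 2 * F c := by
      by_contra hcon
      push Not at hcon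
      obtain ⟨L, hL⟩ := jensen hF hcon
      exact hna ⟨F 0, L, hL⟩
    set f : ℝ → ℂ := fun s => F (c + s * u) with hf
    have hfc : Continuous f := by fun_prop
    obtain ⟨c0, hc0⟩ := exists_notAffine (f := f) (by
      rintro ⟨a, b, hab⟩
      apply hcu
      have h1 := hab 1
      have h2 := hab (-1)
      have h3 := hab 0
      simp only [hf] at h1 h2 h3
      push_cast at h1 h2 h3
      rw [one_mul] at h1
      rw [neg_one_mul, ← sub_eq_add_neg] at h2
      rw [zero_mul, add_zero] at h3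
      rw [h1, h2, h3]
      ring)
    have : Nonempty (Fin n) := ⟨⟨0, by omega⟩⟩
    obtain ⟨z0, hz0⟩ : ∃ z0 : E n, ‖z0‖ = 1 := by
      obtain ⟨p, hp⟩ := (NormedSpace.sphere_nonempty (x := (0 : E n)) (r := 1)).2 zero_le_one
      exact ⟨p, by simpa using hp⟩
    obtain ⟨W, hWc, -, -, hWb, hWg, hWd⟩ := main hn hfc hc0 z0 hz0 one_pos
    have hWB := hWbd hWc hWb
    have h1b : Bd (fun _ : E n => (1 : ℂ)) := ⟨measurable_const, 1, fun x => by simp⟩
    set X : E n → ℂ := fun x => c + W x * u with hX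
    have hXc : Continuous X := by fun_prop
    have hXe : X = c • (fun _ => (1 : ℂ)) + u • (fun x => ((W x : ℝ) : ℂ)) := by
      funext x
      simp only [hX, Pi.add_apply, Pi.smul_apply, smul_eq_mul]
      ring
    have hXb : Bd X := by
      rw [hXe]
      exact (h1b.smul _).add (hWB.smul _)
    intro g hg p hp
    refine hlift (hWd p (hP p hp) ?_) g hg
    have h1 := hcl ⟨fun x : S n => X x, hXc.comp continuous_subtype_val⟩ (fun p hp => by
      change MemLp (ft fun x : S n => X x) (ENNReal.ofReal p)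
      rw [ft_eq X]
      refine ⟨(Fh_sm (sg n) hXb).aestronglyMeasurable, ?_⟩
      have hp1 : 1 ≤ ENNReal.ofReal p := by
        rw [← ENNReal.ofReal_one]
        exact ENNReal.ofReal_le_ofReal (by linarith [p0_one hn, hP p hp])
      rw [hXe, Fh_add _ (h1b.smul _) (hWB.smul _), Fh_smul, Fh_smul]
      refine (eLpNorm_add_le ?_ ?_ hp1).trans_lt (ENNReal.add_lt_top.2 ⟨?_, ?_⟩)
      · exact ((Fh_sm _ h1b).const_smul _).aestronglyMeasurable
      · exact ((Fh_sm _ hWB).const_smul _).aestronglyMeasurable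
      · rw [eLpNorm_const_smul]
        exact ENNReal.mul_lt_top enorm_lt_top (one_good hn (hP p hp))
      · rw [eLpNorm_const_smul]
        exact ENNReal.mul_lt_top enorm_lt_top (hWg p (hP p hp))) p hp
    change MemLp (ft fun x : S n => F (X x)) (ENNReal.ofReal p) at h1
    have h2 : (fun x : S n => F (X x)) = fun x : S n => (fun z : E n => f (W z)) x := rfl
    rw [h2, ft_eq (fun z : E n => f (W z))] at h1
    exact h1.2
  · refine hall _ ?_ p hp
    obtain ⟨B, hB⟩ := (isCompact_univ (X := S n)).exists_bound_of_continuousOn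
      ((hF.comp g.continuous).continuousOn)
    exact memLp_top_of_bound (hF.comp g.continuous).measurable.aestronglyMeasurable B
      (Eventually.of_forall fun x => hB x (mem_univ _))

end Pool.Agent.Results.MP_6cbfb8_an.NonlinearFunctionals
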